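import Pool.Agent.Results.MP_308fa9_nt.ThinRandomCurves

/-!
# Varieties `X_c` with a map to a product of CM elliptic curves: the exceptional vectors in well
# distributed families

The main theorem of the project TQ (`Pool.Agent.N54.TQ.mainDW`) in terms of the definitions of the
starting result `ThinRandomCurves`.
-/

set_option autoImplicit false

namespace Pool.Agent.Helper94.SM

open MvPolynomial NumberField IsDedekindDomain Pool.Agent.TH954
open Pool.Agent.Results.MP_308fa9_nt.ThinRandomCurves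
open Pool.Agent.N666.TM (Well)

/-- The vector in `(𝓞 K)ⁿ` with the coordinates `z` with respect to the integral basis `ω`. -/
noncomputable def vect {K : Type} [Field K] [NumberField K] {n₀ : ℕ}
    (ω : Module.Basis (Fin n₀) ℤ (𝓞 K)) {J : Type} (z : J × Fin n₀ → ℤ) : J → 𝓞 K :=
  fun x => ∑ i, z (x, i) • ω i

/-- `X_c` has no point over `F`, and its `L`-Selmer set over `F` is empty, for all the number fields
`F` over `K` with `[F : ℚ] ≤ D`. -/
def EmptyAt {K : Type} [Field K] [NumberField K] {r s m q : ℕ} (a b : Fin r → ℤ)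
    (Φ : Fin q → MvPolynomial ((Fin r × Fin 3) ⊕ Fin (m + 1)) (𝓞 K))
    {d : Fin s → Fin r → ℕ} {e : Fin s → ℕ} (D L : ℕ) (c : Coeffs m d e → 𝓞 K) : Prop :=
  ∀ (F : Type) [Field F] [NumberField F] [Algebra K F], Module.finrank ℚ F ≤ D →
    ¬ HasPoint a b Φ c F ∧ Sel a b Φ c F L = ∅

theorem coeffs_nonempty {K : Type} [Field K] [NumberField K] {n₀ : ℕ}
    (ω : Module.Basis (Fin n₀) ℤ (𝓞 K)) {r κ s D : ℕ} (hD : 1 ≤ D) (hs : s ≤ r + κ)
    (hr : 2 * D * (r + κ - s) < r) (m : ℕ) (d : Fin s → Fin r → ℕ) (e : Fin s → ℕ) :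
    Nonempty (Coeffs m d e × Fin n₀) := by
  have hs1 : 1 ≤ s := by
    rcases Nat.eq_zero_or_pos s with rfl | h
    · exfalso
      have h1 : r ≤ 2 * D * (r + κ - 0) := by
        rw [Nat.sub_zero]
        nlinarith [Nat.zero_le (D * κ), Nat.zero_le (r * (D - 1)), Nat.mul_le_mul hD (le_refl r)]
      omega
    · exact h
  have hne1 : Nonempty (Coeffs m d e) := Pool.Agent.N89.CI.nonempty_idx m d e hs1
  have hn₀ : 0 < n₀ := by
    have h1 : Module.finrank ℤ (𝓞 K) = n₀ := by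
      rw [Module.finrank_eq_card_basis ω, Fintype.card_fin]
    have h2 : 0 < Module.finrank ℤ (𝓞 K) := by
      rw [NumberField.RingOfIntegers.rank]
      exact Module.finrank_pos
    omega
  exact ⟨(hne1.some, ⟨0, hn₀⟩)⟩

open scoped Classical in
/-- For every `τ < r / 2 - D (r + κ - s)` and every `δ > 0` there is for each large `H` one squarefree
level `L`, `log L ≤ (log H) ^ δ`, such that in each family of vectors which is well distributed modulo
the integers up to `H` all but the proportion `H ^ (-τ)` of the `X_c` are empty at the level `L`. -/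
theorem engine (K : Type) [Field K] [NumberField K] {n₀ : ℕ}
    (ω : Module.Basis (Fin n₀) ℤ (𝓞 K)) (r : ℕ) (a b : Fin r → ℤ)
    (hE : ∀ i, Supersingular (a i) (b i))
    (κ s D : ℕ) (hD : 1 ≤ D) (hs : s ≤ r + κ) (hr : 2 * D * (r + κ - s) < r)
    (d : Fin s → Fin r → ℕ) (e : Fin s → ℕ) (hd : ∀ j i, D ≤ d j i + 1) (he : ∀ j, D ≤ e j + 1)
    (m q : ℕ)
    (Φ : Fin q → MvPolynomial ((Fin r × Fin 3) ⊕ Fin (m + 1)) (𝓞 K))
    (d' : Fin q → Fin r → ℕ) (e' : Fin q → ℕ) (hΦ : ∀ l, Multihomogeneous (Φ l) (d' l) (e' l))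
    (B : ℝ) (hpts : FewPoints a b Φ κ B D) (τ : ℝ)
    (hτ : 2 * τ + 2 * D * ((r + κ - s : ℕ) : ℝ) < r) (δ : ℝ) (hδ : 0 < δ) :
    ∃ H₀ : ℕ, 1 ≤ H₀ ∧ ∀ H : ℕ, H₀ ≤ H → ∃ L : ℕ,
      (1 ≤ L ∧ Squarefree L ∧ Real.log L ≤ Real.log H ^ δ) ∧
      ∀ (S : Finset ℕ) (x : ℕ → Coeffs m d e × Fin n₀ → ℤ), Well S x H →
      ((S.filter fun n => ¬ EmptyAt a b Φ D L (vect ω (x n))).card : ℝ) ≤
        S.card * (H : ℝ) ^ (-τ) := by
  obtain ⟨M, p₁, hM, hpts⟩ := hpts
  choose hdisc M₁ D₁ hM₁ hD₁ hss using hE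
  obtain ⟨ε, hε⟩ : ∃ ε : ℝ, ε = (r : ℝ) / 2 - D * ((r + κ - s : ℕ) : ℝ) - τ := ⟨_, rfl⟩
  have hε0 : 0 < ε := by
    rw [hε]
    linarith
  obtain ⟨H₀, hH₀, hH⟩ := Pool.Agent.N54.TQ.mainDW K r m κ s D n₀ hD hs
    (by rw [← mul_assoc]; exact hr) a b hdisc (∏ i, M₁ i)
    (∏ i, D₁ i) (Finset.prod_pos fun i _ => hM₁ i) (Finset.prod_pos fun i _ => hD₁ i)
    (fun i p hp hpD hpM => hss i p hp
      (fun h => hpD (h.trans (Finset.dvd_prod_of_mem _ (Finset.mem_univ i))))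
      ((Finset.dvd_prod_of_mem _ (Finset.mem_univ i)).trans hpM)) Φ d' e'
    hΦ ω d e hd he B M p₁ hM (fun p _ hp hM => hpts p hp hM) ε δ hε0 hδ
  refine ⟨H₀, hH₀, fun H hH' => ?_⟩
  obtain ⟨L, hL1, hL2, hlog, hcard⟩ := hH H hH'
  refine ⟨L, ⟨hL1, hL2, hlog⟩, fun S x hw => ?_⟩
  have h0 := hcard S x hw
  have e0 : (-((r : ℝ) - (D * (r + κ - s) : ℕ) - r / 2) + ε) = -τ := by
    rw [hε, Nat.cast_mul]
    ring
  rw [e0] at h0
  refine le_trans (Nat.cast_le.2 ?_) h0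
  rw [← Set.ncard_coe_finset]
  refine Set.ncard_le_ncard ?_ (S.finite_toSet.subset fun n hn => hn.1)
  intro n hn
  rw [Finset.mem_coe, Finset.mem_filter] at hn
  obtain ⟨hn1, h⟩ := hn
  refine ⟨hn1, ?_⟩
  unfold EmptyAt at h
  push Not at h
  obtain ⟨F, _, _, _, hF, h⟩ := h
  refine ⟨F, inferInstance, inferInstance, inferInstance, hF, ?_⟩
  have hpar : Pool.Agent.N890.DU.parF F ω (x n) =
      fun y => algebraMap K F (algebraMap (𝓞 K) K (vect ω (x n) y)) := rfl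
  rw [hpar]
  have h1 : HasPoint a b Φ (vect ω (x n)) F ∨ (Sel a b Φ (vect ω (x n)) F L).Nonempty := by
    by_contra hcon
    push Not at hcon
    exact (h hcon.1).ne_empty hcon.2
  rcases h1 with ⟨P, T, hT, h1, h2⟩ | ⟨ξ, h1, h2, h3⟩
  · refine Pool.Agent.N890.DU.isSel_of_point _ a b hdisc _ L hL1 _ P T hT fun l => ?_
    rcases l with l | j
    · simp only [Sum.elim_inl]
      rw [Pool.Agent.N89.CI.valP_lift0]
      exact h1 l
    · simp only [Sum.elim_inr]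
      rw [Pool.Agent.N89.CI.valP_gen]
      exact h2 j
  · refine ⟨ξ, h1, h2, fun w => ?_⟩
    obtain ⟨ι, P, Q, ⟨T, hT, h4, h5⟩, h6, h7⟩ := h3 w
    refine ⟨ι, P, Q, ⟨T, hT, fun l => ?_⟩, h6, h7⟩
    rcases l with l | j
    · simp only [Sum.elim_inl]
      rw [Pool.Agent.N89.CI.valP_lift0]
      exact h4 l
    · simp only [Sum.elim_inr]
      rw [Pool.Agent.N89.CI.valP_gen]
      exact h5 j

end Pool.Agent.Helper94.SM
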